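import Pool.Agent.KACR.Stmts

/-!
# Row LOC: partners over good levels
-/

set_option autoImplicit false

open Set Filter Topology

namespace Pool.Agent.KACR.H34

open Pool.Agent.KACR

/-- quotient of increments -/
lemma quot_tendsto {k G : ℝ → ℝ} {a b p : ℝ} (hk : HasDerivAt k a p) (hG : HasDerivAt G b p)
    (ha : a ≠ 0) :
    Tendsto (fun s => (G s - G p) / (k s - k p)) (𝓝[≠] p) (𝓝 (b / a)) := by
  have h1 := (hasDerivAt_iff_tendsto_slope.mp hG).div (hasDerivAt_iff_tendsto_slope.mp hk) ha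
  refine h1.congr' ?_
  filter_upwards [self_mem_nhdsWithin] with s hs
  have hs' : s - p ≠ 0 := sub_ne_zero.mpr hs
  simp only [Pi.div_apply, slope_def_field]
  rw [div_div_div_cancel_right₀ hs']

lemma per_int {L : ℝ} {k : ℝ → ℝ} (h : ∀ s, k (s + L) = k s) (n : ℤ) (s : ℝ) :
    k (s + n * L) = k s := (Function.Periodic.int_mul (f := k) (c := L) h n) s

lemma deriv_per {L : ℝ} {k : ℝ → ℝ} (h : ∀ s, k (s + L) = k s) (s : ℝ) :
    deriv k (s + L) = deriv k s := by
  have h1 : (fun x => k (x + L)) = k := funext h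
  rw [← deriv_comp_add_const, h1]

theorem loc : LocStmt := by
  intro L k k' hk hk' p hev h1 h2
  have hreg : deriv k p ≠ 0 := fun h => h1 (Or.inl fun hr => hr p rfl h)
  have hd : Differentiable ℝ k := hk.smooth.differentiable (by simp)
  have hd' : Differentiable ℝ k' := hk'.smooth.differentiable (by simp)
  have hs1 : ContDiff ℝ ((⊤ : ℕ∞) : WithTop ℕ∞) (deriv k) :=
    ((contDiff_infty_iff_deriv (𝕜 := ℝ)).mp hk.smooth).2
  have hs1' : ContDiff ℝ ((⊤ : ℕ∞) : WithTop ℕ∞) (deriv k') :=
    ((contDiff_infty_iff_deriv (𝕜 := ℝ)).mp hk'.smooth).2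
  have hdd : Differentiable ℝ (deriv k) := hs1.differentiable (by simp)
  have hdd' : Differentiable ℝ (deriv k') := hs1'.differentiable (by simp)
  have hL := hk.pos
  -- the partner of p
  obtain ⟨p', hp1, hp2⟩ : ∃ p', k' p' = k p ∧ |deriv k p| = |deriv k' p'| := by
    have h3 : |deriv k p| ∈ SL k (k p) := ⟨p, rfl, rfl⟩
    rw [hev.self_of_nhds] at h3
    obtain ⟨t, ht, ht'⟩ := h3
    exact ⟨t, ht, ht'⟩
  have hreg' : deriv k' p' ≠ 0 := by
    intro h
    rw [h, abs_zero, abs_eq_zero] at hp2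
    exact hreg hp2
  -- uniqueness
  have huniq : ∀ t ∈ Icc (p' - L / 2) (p' + L / 2), k' t = k p →
      |deriv k' t| = |deriv k p| → t = p' := by
    intro t ht h3 h4
    by_contra hne
    apply h2
    right
    refine ⟨p', t, ?_, hp1, h3, ?_⟩
    · rintro ⟨n, hn⟩
      rw [hn, mem_Icc] at ht
      have hn1 : (n : ℝ) * L ≤ L / 2 := by linarith [ht.2]
      have hn2 : -(L / 2) ≤ (n : ℝ) * L := by linarith [ht.1]
      have hn3 : (n : ℝ) < 1 := by nlinarith
      have hn4 : (-1 : ℝ) < n := by nlinarith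
      have hn5 : n < 1 := by exact_mod_cast hn3
      have hn6 : -1 < n := by exact_mod_cast hn4
      have hn7 : n = 0 := by omega
      rw [hn7] at hn
      apply hne
      rw [hn]
      simp
    · rw [← sq_abs (deriv k' p'), ← sq_abs (deriv k' t), h4, hp2]
  -- the partners
  have hT : ∀ s, ∃ t, SL k (k s) = SL k' (k s) → k' t = k s ∧ |deriv k' t| = |deriv k s| ∧
      t ∈ Icc (p' - L / 2) (p' + L / 2) := by
    intro s
    by_cases hs : SL k (k s) = SL k' (k s)
    · have h3 : |deriv k s| ∈ SL k (k s) := ⟨s, rfl, rfl⟩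
      rw [hs] at h3
      obtain ⟨t, ht, ht'⟩ := h3
      obtain ⟨n, hn, -⟩ := existsUnique_add_zsmul_mem_Ico hL t (p' - L / 2)
      rw [zsmul_eq_mul] at hn
      refine ⟨t + n * L, fun _ => ⟨?_, ?_, ?_⟩⟩
      · rw [per_int hk'.per, ht]
      · rw [per_int (deriv_per hk'.per), ht']
      · refine ⟨hn.1, ?_⟩
        have := hn.2
        linarith
    · exact ⟨0, fun h => absurd h hs⟩
  choose T hT using hT
  have hevs : ∀ᶠ s in 𝓝 p, SL k (k s) = SL k' (k s) :=
    (hd.continuous.continuousAt (x := p)).eventually hev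
  -- the partners tend to p'
  have hlim : Tendsto T (𝓝 p) (𝓝 p') := by
    rw [tendsto_iff_ultrafilter]
    intro U hU
    have hmem : ∀ᶠ s in (U : Filter ℝ), T s ∈ Icc (p' - L / 2) (p' + L / 2) :=
      (hevs.filter_mono hU).mono fun s hs => (hT s hs).2.2
    obtain ⟨t, ht, htU⟩ := (isCompact_Icc (a := p' - L / 2) (b := p' + L / 2)).ultrafilter_le_nhds
      (U.map T) (by
        rw [le_principal_iff]
        exact hmem)
    have hTt : Tendsto T (U : Filter ℝ) (𝓝 t) := htU
    have h3 : k' t = k p := by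
      have h4 : Tendsto (fun s => k' (T s)) (U : Filter ℝ) (𝓝 (k' t)) :=
        (hd'.continuous.tendsto t).comp hTt
      have h5 : Tendsto k (U : Filter ℝ) (𝓝 (k p)) := (hd.continuous.tendsto p).mono_left hU
      have h6 : Tendsto (fun s => k' (T s)) (U : Filter ℝ) (𝓝 (k p)) :=
        h5.congr' ((hevs.filter_mono hU).mono fun s hs => (hT s hs).1.symm)
      exact tendsto_nhds_unique h4 h6
    have h4 : |deriv k' t| = |deriv k p| := by
      have h4 : Tendsto (fun s => |deriv k' (T s)|) (U : Filter ℝ) (𝓝 |deriv k' t|) :=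
        ((hdd'.continuous.abs).tendsto t).comp hTt
      have h5 : Tendsto (fun s => |deriv k s|) (U : Filter ℝ) (𝓝 |deriv k p|) :=
        (hdd.continuous.abs.tendsto p).mono_left hU
      have h6 : Tendsto (fun s => |deriv k' (T s)|) (U : Filter ℝ) (𝓝 |deriv k p|) :=
        h5.congr' ((hevs.filter_mono hU).mono fun s hs => (hT s hs).2.1.symm)
      exact tendsto_nhds_unique h4 h6
    rw [← huniq t ht h3 h4]
    exact hTt
  -- quotients
  have hkd : HasDerivAt k (deriv k p) p := (hd p).hasDerivAt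
  have hkd' : HasDerivAt k' (deriv k' p') p' := (hd' p').hasDerivAt
  have hGd : HasDerivAt (fun s => deriv k s ^ 2) (2 * deriv k p * deriv (deriv k) p) p := by
    have h7 : HasDerivAt (fun s => deriv k s ^ 2) _ p := (hdd p).hasDerivAt.pow 2
    exact h7.congr_deriv (by simp)
  have hGd' : HasDerivAt (fun s => deriv k' s ^ 2) (2 * deriv k' p' * deriv (deriv k') p') p' := by
    have h7 : HasDerivAt (fun s => deriv k' s ^ 2) _ p' := (hdd' p').hasDerivAt.pow 2
    exact h7.congr_deriv (by simp)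
  have q1 := quot_tendsto hkd hGd hreg
  have q2 := quot_tendsto hkd' hGd' hreg'
  have hne : ∀ᶠ s in 𝓝[≠] p, k s ≠ k p := hkd.eventually_ne hreg
  have hTne : Tendsto T (𝓝[≠] p) (𝓝[≠] p') := by
    apply tendsto_nhdsWithin_of_tendsto_nhds_of_eventually_within
    · exact hlim.mono_left nhdsWithin_le_nhds
    · filter_upwards [hne, hevs.filter_mono nhdsWithin_le_nhds] with s hs1 hs2 hs3
      have hs3' : T s = p' := hs3
      have h3 := (hT s hs2).1
      rw [hs3', hp1] at h3
      exact hs1 h3.symm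
  have q3 := q2.comp hTne
  have q4 : Tendsto (fun s => (deriv k s ^ 2 - deriv k p ^ 2) / (k s - k p)) (𝓝[≠] p)
      (𝓝 (2 * deriv k' p' * deriv (deriv k') p' / deriv k' p')) := by
    refine q3.congr' ?_
    filter_upwards [hevs.filter_mono nhdsWithin_le_nhds] with s hs
    obtain ⟨h3, h4, -⟩ := hT s hs
    simp only [Function.comp]
    rw [h3, hp1, ← sq_abs (deriv k' (T s)), h4, sq_abs, ← sq_abs (deriv k' p'), ← hp2, sq_abs]
  have q5 := tendsto_nhds_unique q1 q4
  refine ⟨p', hp1, ?_, ?_⟩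
  · rw [← sq_abs (deriv k' p'), ← hp2, sq_abs]
  · have e1 : 2 * deriv k p * deriv (deriv k) p / deriv k p = 2 * deriv (deriv k) p := by
      field_simp
    have e2 : 2 * deriv k' p' * deriv (deriv k') p' / deriv k' p' = 2 * deriv (deriv k') p' := by
      field_simp
    rw [e1, e2] at q5
    linarith

end Pool.Agent.KACR.H34
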